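import Pool.Agent.H64.NC.SFZ
import Pool.Agent.H3.UP.TDU
import Pool.Agent.H3.UP.FTR
import Pool.Agent.H64.PE.PEF
import Pool.Agent.H64.JS.COM

/-!
# DIM* (MP_8f2e1c), chapter EMB (think 1880, section 0): the inputs from the persistent recurrence

For the maps of the families `R(d, m)` which are not limits of maps with more attracted critical points (`¬ UpF`): `inp_c`: if the post-critical set `K` is totally
disconnected then the number of critical times tends to infinity uniformly on `K`; `inp_e`: every critical point `c` in the Julia set is in `K` and in its own limit set;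
`inp_k`: `K` is closed, invariant, contained in the Julia set.
-/

set_option autoImplicit false

open Filter Topology Polynomial Metric Set

namespace Pool.Agent.H47.EMB

open Pool.Agent.H32.BT Pool.Agent.H79.Eul Pool.Agent.H79.Par Pool.Agent.H44.RC
open Pool.Agent.H47.NM Pool.Agent.H57.CF Pool.Agent.H47.RJ Pool.Agent.H64.PF Pool.Agent.H64.JS Pool.Agent.H3.NC

variable {d m : ℕ}

theorem inp_k (hd : 2 ≤ d) {x : Em d m} (hcop : IsCoprime (pol x.1) (pol x.2))
    (hdeg : max (pol x.1).natDegree (pol x.2).natDegree = d) :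
    Continuous (Rf (ex d m x)) ∧ {c | IsCrit (Rf (ex d m x)) c}.Finite ∧ IsClosed (KV (ex d m x)) ∧
      (∀ y ∈ KV (ex d m x), Rf (ex d m x) y ∈ KV (ex d m x)) ∧ KV (ex d m x) ⊆ JS (Rf (ex d m x)) ∧
      (∀ y ∈ JS (Rf (ex d m x)), Rf (ex d m x) y ∈ JS (Rf (ex d m x))) ∧ IsClosed (JS (Rf (ex d m x))) := by
  have hcop' := ex_cop hcop
  have hdeg' := ex_deg hdeg
  have hf : Continuous (Rf (ex d m x)) := Pool.Agent.H44.Fatou.rat_continuous hcop'
  have hJc : IsClosed (JS (Rf (ex d m x))) := js_closed (Rf (ex d m x))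
  have hJi := js_inv hd hcop' hdeg'
  exact ⟨hf, crit_finite hcop' (by rw [hdeg']; omega), isClosed_closure, kj_inv hf, kj_sub hJc hJi, hJi, hJc⟩

theorem inp_c (hd : 2 ≤ d) (hm : m ≤ d) {x : Em d m} (hcop : IsCoprime (pol x.1) (pol x.2))
    (hdeg : max (pol x.1).natDegree (pol x.2).natDegree = d) (hup : ¬ UpF d m x)
    (htd : IsTotallyDisconnected (KV (ex d m x))) {δ : ℝ} (hδ : 0 < δ) (D : ℕ) :
    ∃ N : ℕ, ∀ n, N ≤ n → ∀ y ∈ KV (ex d m x), D < (CT (Rf (ex d m x)) y n δ).ncard := by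
  obtain ⟨hf, hfin, -, -, -, hJi, hJc⟩ := inp_k (m := m) hd hcop hdeg
  exact Pool.Agent.H3.UP.tdu hf hfin hJc hJi (Pool.Agent.H3.UP.fat_fam hd hm hcop hdeg hup)
    (Pool.Agent.H64.NC.pr_end hd hm hcop hdeg hup) htd hδ D

theorem inp_e (hd : 2 ≤ d) (hm : m ≤ d) {x : Em d m} (hcop : IsCoprime (pol x.1) (pol x.2))
    (hdeg : max (pol x.1).natDegree (pol x.2).natDegree = d) (hup : ¬ UpF d m x)
    (htd : IsTotallyDisconnected (KV (ex d m x))) {c : OnePoint ℂ} (hc : IsCrit (Rf (ex d m x)) c)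
    (hcJ : c ∈ JS (Rf (ex d m x))) :
    c ∈ KV (ex d m x) ∧ MapClusterPt c atTop (fun n : ℕ => (Rf (ex d m x))^[n] c) := by
  obtain ⟨hf, -, hK, hKi, -, -, -⟩ := inp_k (m := m) hd hcop hdeg
  have h1 := Pool.Agent.H64.PE.meet_fam hd hm hcop hdeg hup c hc hcJ
  have h2 := cmp_om hf hK hKi h1
  have h3 := td_om htd h2
  refine ⟨?_, h3⟩
  obtain ⟨y, hy, -⟩ := h1
  by_contra hn
  rw [connectedComponentIn_eq_empty hn] at hy
  exact hy

end Pool.Agent.H47.EMB
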